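import Pool.Agent.H.MP_af8618_al.A
import Pool.Agent.H.MP_9b0338_al.D

set_option autoImplicit false

namespace Pool.Agent.H.MP_af8618_al

open Pool.Agent.H.MP_9b0338_al SimpleGraph

variable {G : Type} [Group G]

theorem len_zpow (S : Finset G) (hS : Subgroup.closure (S : Set G) = ⊤) (x : G) (hx : x ∈ S)
    (g : G) (d : ℤ) : len S (g * x ^ d) ≤ len S g + d.natAbs := by
  induction d using Int.induction_on with
  | zero => simp
  | succ n ih =>
    have := len_step S hS (u := g * x ^ (n : ℤ)) (v := g * x ^ ((n : ℤ) + 1))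
      (Or.inl (by rw [zpow_add_one]; simpa [mul_assoc] using hx))
    omega
  | pred n ih =>
    have := len_step S hS (u := g * x ^ (-(n : ℤ))) (v := g * x ^ (-(n : ℤ) - 1))
      (Or.inr (by
        have : (g * x ^ (-(n : ℤ) - 1))⁻¹ * (g * x ^ (-(n : ℤ))) = x := by group
        rwa [this]))
    omega

def c (a t : G) (i : ℤ) : G := t ^ i * a * t ^ (-i)

variable {a t : G} {m : ℕ}

theorem c_succ (h : t * a * t⁻¹ = a ^ m) (i : ℤ) : c a t (i + 1) = c a t i ^ m := by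
  unfold c
  have : t ^ (i + 1) * a * t ^ (-(i + 1)) = t ^ i * (t * a * t⁻¹) * (t ^ i)⁻¹ := by group
  rw [this, h, zpow_neg, conj_pow]

theorem c_add (h : t * a * t⁻¹ = a ^ m) (i : ℤ) (r : ℕ) :
    c a t (i + r) = c a t i ^ ((m : ℤ) ^ r) := by
  induction r with
  | zero => simp
  | succ r ih =>
    push_cast
    rw [← add_assoc, c_succ h, ih, ← zpow_natCast, ← zpow_mul, pow_succ]

theorem t_mul_a (k d : ℤ) : t ^ k * a ^ d = c a t k ^ d * t ^ k := by
  unfold c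
  rw [zpow_neg, conj_zpow]; group

theorem sweep_up (h : t * a * t⁻¹ = a ^ m) (S : Finset G) (hS : Subgroup.closure (S : Set G) = ⊤)
    (ha : a ∈ S) (ht : t ∈ S) (j : ℕ) : ∀ (N : ℤ) (w : ℕ), R m j N w → ∀ (g : G) (k : ℤ),
      len S (g * c a t k ^ N * t ^ (k + j)) ≤ len S (g * t ^ k) + j + w := by
  induction j with
  | zero => intro N w hR g k; rw [show N = 0 from hR]; simp
  | succ j ih =>
    rintro N w ⟨d, N', w', h1, h2, h3⟩ g k
    have a1 := len_zpow S hS a ha (g * t ^ k) d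
    have a2 := len_zpow S hS t ht (g * t ^ k * a ^ d) 1
    have a3 := ih N' w' h3 (g * c a t k ^ d) (k + 1)
    have e1 : g * c a t k ^ d * t ^ (k + 1) = g * t ^ k * a ^ d * t ^ (1 : ℤ) := by
      rw [mul_assoc g (t ^ k), t_mul_a]; group
    have e2 : g * c a t k ^ d * c a t (k + 1) ^ N' * t ^ (k + 1 + j) =
        g * c a t k ^ N * t ^ (k + (j + 1 : ℕ)) := by
      rw [c_succ h, h1, ← zpow_natCast, ← zpow_mul]; push_cast; group
    rw [e1, e2] at a3
    simp only [Int.natAbs_one] at a2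
    omega

theorem sweep_down (h : t * a * t⁻¹ = a ^ m) (S : Finset G) (hS : Subgroup.closure (S : Set G) = ⊤)
    (ha : a ∈ S) (ht : t ∈ S) (j : ℕ) : ∀ (N : ℤ) (w : ℕ), R m j N w → ∀ (g : G) (k : ℤ),
      len S (g * c a t k ^ N * t ^ k) ≤ len S (g * t ^ (k + j)) + j + w := by
  induction j with
  | zero => intro N w hR g k; rw [show N = 0 from hR]; simp
  | succ j ih =>
    rintro N w ⟨d, N', w', h1, h2, h3⟩ g k
    have a3 := ih N' w' h3 g (k + 1)
    have a2 := len_zpow S hS t ht (g * c a t (k + 1) ^ N' * t ^ (k + 1)) (-1)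
    have a1 := len_zpow S hS a ha (g * c a t (k + 1) ^ N' * t ^ (k + 1) * t ^ (-1 : ℤ)) d
    have e1 : g * c a t (k + 1) ^ N' * t ^ (k + 1) * t ^ (-1 : ℤ) * a ^ d =
        g * c a t k ^ N * t ^ k := by
      have : g * c a t (k + 1) ^ N' * t ^ (k + 1) * t ^ (-1 : ℤ) * a ^ d =
          g * c a t (k + 1) ^ N' * (t ^ k * a ^ d) := by group
      rw [this, t_mul_a, c_succ h, h1, ← zpow_natCast, ← zpow_mul]; group
    have e2 : k + 1 + j = k + (j + 1 : ℕ) := by push_cast; ring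
    rw [e1] at a1
    rw [e2] at a3
    simp only [Int.natAbs_neg, Int.natAbs_one] at a2
    omega

theorem upper (hm : 2 ≤ m) (h : t * a * t⁻¹ = a ^ m) (S : Finset G)
    (hS : Subgroup.closure (S : Set G) = ⊤) (ha : a ∈ S) (ht : t ∈ S) (n : ℕ) (N k : ℤ)
    (hN : N.natAbs ≤ m ^ (2 * n)) (hk : k.natAbs ≤ n) :
    len S (c a t (-n) ^ N * t ^ k) + k.natAbs ≤ 4 * n + 2 + nu m N := by
  have hR := nu_reduce hm (2 * n) N hN
  rcases le_total 0 k with h0 | h0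
  · have a1 := len_zpow S hS t ht 1 (-n)
    have a2 := sweep_up h S hS ha ht _ _ _ hR 1 (-n)
    have a3 := len_zpow S hS t ht (1 * c a t (-n) ^ N * t ^ (-(n : ℤ) + (2 * n + 1 : ℕ)))
      (k - n - 1)
    have e : 1 * c a t (-n) ^ N * t ^ (-(n : ℤ) + (2 * n + 1 : ℕ)) * t ^ (k - n - 1) =
        c a t (-n) ^ N * t ^ k := by push_cast; group
    rw [e] at a3
    rw [len_one] at a1
    omega
  · have a1 := len_zpow S hS t ht 1 (-(n : ℤ) + (2 * n + 1 : ℕ))
    have a2 := sweep_down h S hS ha ht _ _ _ hR 1 (-n)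
    have a3 := len_zpow S hS t ht (1 * c a t (-n) ^ N * t ^ (-(n : ℤ))) (k + n)
    have e : 1 * c a t (-n) ^ N * t ^ (-(n : ℤ)) * t ^ (k + n) =
        c a t (-n) ^ N * t ^ k := by group
    rw [e] at a3
    rw [len_one] at a1
    omega

def Box (a t : G) (m n : ℕ) : Set G :=
  {g | ∃ N k : ℤ, N.natAbs < m ^ (2 * n) ∧ k.natAbs ≤ n ∧ g = c a t (-n) ^ N * t ^ k}

theorem box_finite (a t : G) (m n : ℕ) : (Box a t m n).Finite := by
  refine (((Set.finite_Icc (-(m ^ (2 * n) : ℕ) : ℤ) (m ^ (2 * n) : ℕ)).prod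
    (Set.finite_Icc (-(n : ℤ)) n)).image
      (fun z : ℤ × ℤ => c a t (-n) ^ z.1 * t ^ z.2)).subset ?_
  rintro _ ⟨N, k, h1, h2, rfl⟩
  exact ⟨(N, k), ⟨⟨by omega, by omega⟩, ⟨by omega, by omega⟩⟩, rfl⟩

theorem box_exit (hm : 2 ≤ m) (h : t * a * t⁻¹ = a ^ m) (S : Finset G)
    (hS : Subgroup.closure (S : Set G) = ⊤) (hmem : ∀ x, x ∈ S ↔ x = a ∨ x = t) (n : ℕ)
    (u : G) (hu : u ∈ Box a t m n) (v : G) (huv : u⁻¹ * v ∈ S ∨ v⁻¹ * u ∈ S)
    (hv : v ∉ Box a t m n) : len S u + n / 2 ≤ 4 * n + 3 + W m (2 * n + 1) := by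
  obtain ⟨N, k, h1, h2, rfl⟩ := hu
  have up := upper hm h S hS ((hmem a).2 (Or.inl rfl)) ((hmem t).2 (Or.inr rfl)) n N k h1.le h2
  have hcase : ∃ e : ℤ, e.natAbs = 1 ∧
      (v = c a t (-n) ^ N * t ^ k * a ^ e ∨ v = c a t (-n) ^ N * t ^ k * t ^ e) := by
    rw [hmem, hmem] at huv
    rcases huv with (e | e) | (e | e)
    · exact ⟨1, rfl, Or.inl (by rw [zpow_one]; exact inv_mul_eq_iff_eq_mul.1 e)⟩
    · exact ⟨1, rfl, Or.inr (by rw [zpow_one]; exact inv_mul_eq_iff_eq_mul.1 e)⟩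
    · refine ⟨-1, rfl, Or.inl ?_⟩
      rw [inv_mul_eq_iff_eq_mul.1 e]; group
    · refine ⟨-1, rfl, Or.inr ?_⟩
      rw [inv_mul_eq_iff_eq_mul.1 e]; group
  obtain ⟨e, he, hv2 | hv2⟩ := hcase
  · obtain ⟨r, hr⟩ := Int.eq_ofNat_of_zero_le (show 0 ≤ n + k by omega)
    have e1 : v = c a t (-n) ^ (N + e * m ^ r) * t ^ k := by
      have : c a t k = c a t (-n) ^ ((m : ℤ) ^ r) := by
        rw [← c_add h]; congr 1; omega
      rw [hv2, mul_assoc, t_mul_a, this, ← zpow_mul]; group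
    have big : m ^ (2 * n) ≤ (N + e * m ^ r).natAbs := by
      by_contra hc
      exact hv ⟨_, k, by omega, h2, e1⟩
    have s1 : (e * m ^ r).natAbs = m ^ r := by
      rw [Int.natAbs_mul, he, Int.natAbs_pow, Int.natAbs_natCast, one_mul]
    have s2 : m ^ r < m ^ (r + 1) := Nat.pow_lt_pow_right (by omega) (by omega)
    have s3 : ∃ σ : ℤ, σ.natAbs = 1 ∧ (N - σ * m ^ (2 * n)).natAbs < m ^ (r + 1) := by
      have cst : ((m : ℤ) ^ (2 * n)) = ((m ^ (2 * n) : ℕ) : ℤ) := by push_cast; rfl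
      generalize e * (m : ℤ) ^ r = y at *
      rcases le_total 0 (N + y) with h0 | h0
      · exact ⟨1, rfl, by rw [cst]; omega⟩
      · exact ⟨-1, rfl, by rw [cst]; omega⟩
    obtain ⟨σ, hσ, s3⟩ := s3
    have n1 := nu_add (m := m) (N - σ * m ^ (2 * n)) (σ * m ^ (2 * n))
    rw [sub_add_cancel] at n1
    have n2 := nu_single (m := m) σ (2 * n)
    have n3 := le_W s3
    have n4 := W_grow' hm (r + 1) ((2 * n - r) / 2)
    have n5 := W_mono (m := m) (by omega) (show r + 1 + 2 * ((2 * n - r) / 2) ≤ 2 * n + 1 by omega)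
    omega
  · have e1 : v = c a t (-n) ^ N * t ^ (k + e) := by rw [hv2]; group
    have big : n < (k + e).natAbs := by
      by_contra hc
      exact hv ⟨N, _, h1, by omega, e1⟩
    have n3 := le_W h1
    have n5 := W_mono (m := m) (by omega) (show 2 * n ≤ 2 * n + 1 by omega)
    omega

def P (m : ℕ) {x y : ℚˣ} (z : Md x y) (s : ℕ) : Prop :=
  z.j = 0 ∧ ∃ (α β w : ℕ) (N : ℤ), z.r * (m : ℚ) ^ α = N ∧ -(α : ℤ) ≤ z.i ∧ z.i ≤ β ∧
    R m (α + β + 1) N w ∧ 2 * (α + β) + w ≤ s + z.i.natAbs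

theorem P_step {x y : ℚˣ} (hx : (x : ℚ) = m) (hm : 2 ≤ m) {z : Md x y} {s : ℕ} (hP : P m z s)
    (e : ℤ) (he : e.natAbs = 1) : P m (z * ⟨0, 0, e⟩) (s + 1) ∧ P m (z * ⟨e, 0, 0⟩) (s + 1) := by
  obtain ⟨h0, α, β, w, N, h1, h2, h3, h4, h5⟩ := hP
  have m0 : (m : ℚ) ≠ 0 := by positivity
  constructor
  · obtain ⟨r, hr⟩ := Int.eq_ofNat_of_zero_le (show 0 ≤ α + z.i by omega)
    refine ⟨by simp [h0], α, β, w + 1, N + e * m ^ r, ?_, by simpa using h2, by simpa using h3,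
      ?_, by simp; omega⟩
    · simp only [mul_r, mon, h0, zpow_zero, mul_one, Units.val_zpow_eq_zpow_val, hx]
      push_cast
      rw [add_mul, h1, ← zpow_natCast (m : ℚ) r, ← hr, zpow_add₀ m0, zpow_natCast]
      ring
    · have := (R_single (m := m) e r).mono_j (show r + 1 ≤ α + β + 1 by omega)
      rw [he] at this
      exact h4.add this
  · by_cases c1 : z.i + e ≤ β
    · by_cases c2 : -(α : ℤ) ≤ z.i + e
      · exact ⟨by simp [h0], α, β, w, N, by simpa using h1, c2, c1, h4, by simp; omega⟩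
      · refine ⟨by simp [h0], α + 1, β, w, m * N, ?_, by simp; omega, c1, ?_, by simp; omega⟩
        · simp only [mul_r, mul_zero, add_zero]
          push_cast
          rw [← h1]; ring
        · rw [show α + 1 + β + 1 = α + β + 1 + 1 by ring]
          exact h4.shift
    · exact ⟨by simp [h0], α, β + 1, w, N, by simpa using h1, by simp; omega, by simp; omega,
        h4.succ, by simp; omega⟩

theorem P_len {x y : ℚˣ} (hx : (x : ℚ) = m) (hm : 2 ≤ m) (S : Finset G)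
    (hS : Subgroup.closure (S : Set G) = ⊤) (hmem : ∀ x, x ∈ S ↔ x = a ∨ x = t)
    (φ : G →* Md x y) (ha : φ a = ⟨0, 0, 1⟩) (ht : φ t = ⟨1, 0, 0⟩) (g : G) :
    P m (φ g) (len S g) := by
  have key : ∀ (u v : G) (p : (Cay S).Walk u v) (s : ℕ), P m (φ u) s → P m (φ v) (s + p.length) := by
    intro u v p
    induction p with
    | nil => intro s hs; exact hs
    | @cons u w v h p ih =>
      intro s hs
      rw [Walk.length_cons, show s + (p.length + 1) = s + 1 + p.length by ring]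
      apply ih
      have h2 := ((adj_iff S u w).1 h).2
      rw [hmem, hmem] at h2
      rcases h2 with (e | e) | (e | e)
      · rw [inv_mul_eq_iff_eq_mul.1 e, map_mul, ha]
        simpa using (P_step hx hm hs 1 rfl).1
      · rw [inv_mul_eq_iff_eq_mul.1 e, map_mul, ht]
        exact (P_step hx hm hs 1 rfl).2
      · have : w = u * a⁻¹ := by rw [inv_mul_eq_iff_eq_mul.1 e]; group
        have e2 : (⟨0, 0, 1⟩ : Md x y)⁻¹ = ⟨0, 0, ((-1 : ℤ) : ℚ)⟩ := by ext <;> simp [mon_zero]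
        rw [this, map_mul, map_inv, ha, e2]
        exact (P_step hx hm hs (-1) rfl).1
      · have : w = u * t⁻¹ := by rw [inv_mul_eq_iff_eq_mul.1 e]; group
        have e2 : (⟨1, 0, 0⟩ : Md x y)⁻¹ = ⟨-1, 0, 0⟩ := by ext <;> simp
        rw [this, map_mul, map_inv, ht, e2]
        exact (P_step hx hm hs (-1) rfl).2
  obtain ⟨p, hp⟩ := (conn S hS).exists_walk_length_eq_dist 1 g
  have := key 1 g p 0 (by
    rw [map_one]
    exact ⟨rfl, 0, 0, 0, 0, by simp, by simp, by simp, R_zero _ _, by simp⟩)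
  rwa [zero_add, hp] at this

theorem zpow_lamp {x y : ℚˣ} (r : ℚ) (N : ℤ) : (⟨0, 0, r⟩ : Md x y) ^ N = ⟨0, 0, N * r⟩ := by
  induction N using Int.induction_on with
  | zero => ext <;> simp
  | succ n ih => rw [zpow_add_one, ih]; ext <;> simp [mon_zero]; ring
  | pred n ih => rw [zpow_sub_one, ih]; ext <;> simp [mon_zero]; ring

theorem sq_le_two_pow (j : ℕ) (hj : 4 ≤ j) : j * j ≤ 2 ^ j := by
  induction j, hj using Nat.le_induction with
  | base => norm_num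
  | succ k hk ih => rw [pow_succ]; nlinarith

theorem deep {x y : ℚˣ} (hx : (x : ℚ) = m) (hm : 2 ≤ m) (S : Finset G)
    (hS : Subgroup.closure (S : Set G) = ⊤) (hmem : ∀ x, x ∈ S ↔ x = a ∨ x = t)
    (φ : G →* Md x y) (ha : φ a = ⟨0, 0, 1⟩) (ht : φ t = ⟨1, 0, 0⟩) (K : ℕ)
    (hK : 16 * m + 2 ≤ K) : ∃ g ∈ Box a t m (8 * K),
      4 * (8 * K) + W m (2 * (8 * K) + 1) ≤ len S g + 2 * K + 6 + 5 * m := by
  obtain ⟨n', hn'⟩ : ∃ n', 8 * K = n' + 2 := ⟨8 * K - 2, by omega⟩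
  rw [hn']
  obtain ⟨N0, h1, h2⟩ := W_spec (m := m) (by omega) (2 * n')
  have g1 := small_grow hm h1
  have g2 := nu_grow hm N0
  have p1 : m ^ (2 * n' + 3) = m * m ^ (2 * n' + 2) := by ring
  have p2 : m ^ (2 * (n' + 2)) = m * m ^ (2 * n' + 3) := by ring
  have q1 : 2 * m ^ (2 * n' + 2) ≤ m ^ (2 * n' + 3) := by rw [p1]; exact Nat.mul_le_mul_right _ hm
  have q2 : 2 * m ^ (2 * n' + 3) ≤ m ^ (2 * (n' + 2)) := by
    rw [p2]; exact Nat.mul_le_mul_right _ hm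
  obtain ⟨N, hN⟩ : ∃ N : ℤ, N = m ^ 2 * N0 + 1 + m ^ (2 * n' + 3) := ⟨_, rfl⟩
  have cst : ((m : ℤ) ^ (2 * n' + 3)) = ((m ^ (2 * n' + 3) : ℕ) : ℤ) := by push_cast; rfl
  have N1 : N.natAbs < m ^ (2 * (n' + 2)) := by rw [hN, cst]; omega
  have N2 : m ^ (2 * n' + 2) ≤ N.natAbs := by rw [hN, cst]; omega
  have N3 : W m (2 * n') ≤ nu m N := by
    have a1 := nu_add (m := m) N (-1 * m ^ (2 * n' + 3))
    have a2 := nu_single (m := m) (-1) (2 * n' + 3)
    rw [show N + -1 * m ^ (2 * n' + 3) = m ^ 2 * N0 + 1 by rw [hN]; ring] at a1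
    simp only [Int.natAbs_neg, Int.natAbs_one] at a2
    omega
  refine ⟨c a t (-(n' + 2 : ℕ)) ^ N * t ^ (0 : ℤ), ⟨N, 0, N1, by simp, rfl⟩, ?_⟩
  have m0 : (m : ℚ) ≠ 0 := by positivity
  obtain ⟨-, α, β, w, N', b1, b2, b3, b4, b5⟩ := P_len hx hm S hS hmem φ ha ht
    (c a t (-(n' + 2 : ℕ)) ^ N * t ^ (0 : ℤ))
  have hφ : φ (c a t (-(n' + 2 : ℕ)) ^ N * t ^ (0 : ℤ)) =
      ⟨0, 0, N * (m : ℚ) ^ (-((n' + 2 : ℕ) : ℤ))⟩ := by
    unfold c
    rw [zpow_zero, mul_one, map_zpow, map_mul, map_mul, map_zpow, map_zpow, ha, ht, zpow_t, zpow_t,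
      ← zpow_lamp]
    congr 1
    ext <;> simp [mon, hx]
  rw [hφ] at b1 b5
  simp only [Int.natAbs_zero, add_zero] at b1 b5
  generalize len S _ = L at *
  have hα : n' + 2 ≤ α := by
    by_contra hc
    obtain ⟨r, hr⟩ : ∃ r, n' + 2 = α + (r + 1) := ⟨n' + 1 - α, by omega⟩
    have : (N : ℚ) = N' * m ^ (r + 1) := by
      rw [← b1, hr, zpow_neg, zpow_natCast, pow_add]; field_simp
    have e : N = N' * m ^ (r + 1) := by exact_mod_cast this
    have : (m : ℤ) ∣ 1 := ⟨N' * m ^ r - m * N0 - m ^ (2 * n' + 2), by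
      linear_combination e - hN⟩
    have := Int.le_of_dvd one_pos this
    omega
  obtain ⟨r, rfl⟩ := Nat.exists_eq_add_of_le hα
  have e : N' = m ^ r * N := by
    have : (N' : ℚ) = m ^ r * N := by
      rw [← b1, zpow_neg, zpow_natCast, pow_add (m : ℚ) (n' + 2) r]; field_simp
    exact_mod_cast this
  have w1 : W m (2 * n') ≤ w := by
    have := nu_le b4
    have := nu_pow_mul (m := m) (by omega) r N
    rw [e] at *
    omega
  have w2 := W_add hm (2 * n') 5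
  rw [show 2 * n' + 5 = 2 * (n' + 2) + 1 by ring] at w2
  have w3 := W_add hm 0 (2 * n')
  rw [W_zero, zero_add, zero_add] at w3
  by_cases hβ : n' ≤ β + 1 + K
  · omega
  obtain ⟨j, hj⟩ : ∃ j, n' = β + 1 + j := ⟨n' - (β + 1), by omega⟩
  have bd := b4.bound (by omega)
  rw [e, Int.natAbs_mul, Int.natAbs_pow, Int.natAbs_natCast] at bd
  have w4 : m ^ j ≤ w := by
    have h3 : m ^ j * m ^ (n' + 2 + r + β + 1) ≤ w * m ^ (n' + 2 + r + β + 1) := by
      calc m ^ j * m ^ (n' + 2 + r + β + 1) = m ^ r * m ^ (2 * n' + 2) := by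
            rw [← pow_add, ← pow_add]; congr 1; omega
        _ ≤ m ^ r * N.natAbs := Nat.mul_le_mul_left _ N2
        _ ≤ _ := bd
    exact Nat.le_of_mul_le_mul_right h3 (by positivity)
  have w5 : 2 ^ j ≤ m ^ j := Nat.pow_le_pow_left hm j
  have w6 := sq_le_two_pow j (by omega)
  have w7 : (16 * m + 2) * j ≤ j * j := Nat.mul_le_mul_right _ (by omega)
  have w8 : m * (2 * n') ≤ m * (16 * j) := Nat.mul_le_mul_left _ (by omega)
  have w9 : (16 * m + 2) * j = m * (16 * j) + 2 * j := by ring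
  omega

theorem main {x y : ℚˣ} (hx : (x : ℚ) = m) (hm : 2 ≤ m) (h : t * a * t⁻¹ = a ^ m) (S : Finset G)
    (hS : Subgroup.closure (S : Set G) = ⊤) (hmem : ∀ x, x ∈ S ↔ x = a ∨ x = t)
    (φ : G →* Md x y) (ha : φ a = ⟨0, 0, 1⟩) (ht : φ t = ⟨1, 0, 0⟩) (D : ℕ) :
    ∃ g : G, {v | ∃ p : (Cay S).Walk g v, ∀ u ∈ p.support, len S g ≤ len S u + D}.Finite := by
  obtain ⟨g, hg, h1⟩ := deep hx hm S hS hmem φ ha ht (16 * m + 2 + D + 10) (by omega)
  refine ⟨g, (box_finite a t m (8 * (16 * m + 2 + D + 10))).subset ?_⟩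
  rintro v ⟨p, hp⟩
  by_contra hv
  obtain ⟨d, hd, d1, d2⟩ := p.exists_boundary_dart _ hg hv
  have h2 := hp d.fst (Walk.dart_fst_mem_support_of_mem_darts p hd)
  have h3 := box_exit hm h S hS hmem _ _ d1 _ ((adj_iff S _ _).1 d.adj).2 d2
  omega

end Pool.Agent.H.MP_af8618_al
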