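import Mathlib

set_option autoImplicit false

namespace Pool.Agent.H.MP_af8618_al

def R (m : ℕ) : ℕ → ℤ → ℕ → Prop
  | 0, N, _ => N = 0
  | j + 1, N, w => ∃ (d N' : ℤ) (w' : ℕ), N = d + m * N' ∧ d.natAbs + w' ≤ w ∧ R m j N' w'

variable {m : ℕ}

theorem R_zero (j w : ℕ) : R m j 0 w := by
  induction j with
  | zero => rfl
  | succ j ih => exact ⟨0, 0, w, by simp, by simp, ih⟩

theorem R.mono_w {j : ℕ} {N : ℤ} {w w' : ℕ} (h : R m j N w) (hw : w ≤ w') : R m j N w' := by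
  cases j with
  | zero => exact h
  | succ j =>
    obtain ⟨d, N', w0, h1, h2, h3⟩ := h
    exact ⟨d, N', w0, h1, h2.trans hw, h3⟩

theorem R.succ {j : ℕ} : ∀ {N : ℤ} {w : ℕ}, R m j N w → R m (j + 1) N w := by
  induction j with
  | zero => intro N w h; rw [show N = 0 from h]; exact R_zero _ _
  | succ j ih =>
    rintro N w ⟨d, N', w0, h1, h2, h3⟩
    exact ⟨d, N', w0, h1, h2, ih h3⟩

theorem R.mono_j {j j' : ℕ} {N : ℤ} {w : ℕ} (h : R m j N w) (hj : j ≤ j') : R m j' N w := by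
  induction hj with
  | refl => exact h
  | step _ ih => exact ih.succ

theorem R.add {j : ℕ} : ∀ {N N' : ℤ} {w w' : ℕ}, R m j N w → R m j N' w' →
    R m j (N + N') (w + w') := by
  induction j with
  | zero => intro N N' w w' h h'; rw [show N = 0 from h, show N' = 0 from h']; rfl
  | succ j ih =>
    rintro N N' w w' ⟨d, M, w0, h1, h2, h3⟩ ⟨d', M', w0', h1', h2', h3'⟩
    refine ⟨d + d', M + M', w0 + w0', by rw [h1, h1']; ring, ?_, ih h3 h3'⟩
    have := Int.natAbs_add_le d d'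
    omega

theorem R.shift {j : ℕ} {N : ℤ} {w : ℕ} (h : R m j N w) : R m (j + 1) (m * N) w :=
  ⟨0, N, w, by simp, by simp, h⟩

theorem R_single (c : ℤ) (i : ℕ) : R m (i + 1) (c * m ^ i) c.natAbs := by
  induction i with
  | zero => exact ⟨c, 0, 0, by simp, by simp, rfl⟩
  | succ i ih =>
    have := ih.shift
    rwa [show (m : ℤ) * (c * m ^ i) = c * m ^ (i + 1) by ring] at this

theorem R.bound (hm : 1 ≤ m) {j : ℕ} : ∀ {N : ℤ} {w : ℕ}, R m j N w → N.natAbs ≤ w * m ^ j := by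
  induction j with
  | zero => intro N w h; rw [show N = 0 from h]; simp
  | succ j ih =>
    rintro N w ⟨d, N', w0, h1, h2, h3⟩
    have a1 := ih h3
    have a2 := Int.natAbs_add_le d (m * N')
    rw [Int.natAbs_mul, Int.natAbs_natCast, ← h1] at a2
    have a3 : 1 ≤ m ^ (j + 1) := Nat.one_le_pow _ _ hm
    calc N.natAbs ≤ d.natAbs + m * N'.natAbs := a2
      _ ≤ d.natAbs * m ^ (j + 1) + m * (w0 * m ^ j) := by
        apply add_le_add
        · exact Nat.le_mul_of_pos_right _ a3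
        · exact Nat.mul_le_mul_left _ a1
      _ = (d.natAbs + w0) * m ^ (j + 1) := by ring
      _ ≤ w * m ^ (j + 1) := Nat.mul_le_mul_right _ h2

noncomputable def nu (m : ℕ) (N : ℤ) : ℕ := sInf {w | ∃ j, R m j N w}

theorem nu_le {j : ℕ} {N : ℤ} {w : ℕ} (h : R m j N w) : nu m N ≤ w := Nat.sInf_le ⟨j, h⟩

theorem nu_spec (N : ℤ) : ∃ j, R m j N (nu m N) :=
  Nat.sInf_mem (s := {w | ∃ j, R m j N w}) ⟨N.natAbs, 1, by simpa using R_single (m := m) N 0⟩

theorem nu_add (N N' : ℤ) : nu m (N + N') ≤ nu m N + nu m N' := by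
  obtain ⟨j, h⟩ := nu_spec (m := m) N
  obtain ⟨j', h'⟩ := nu_spec (m := m) N'
  exact nu_le ((h.mono_j (le_max_left j j')).add (h'.mono_j (le_max_right j j')))

theorem nu_single (c : ℤ) (i : ℕ) : nu m (c * m ^ i) ≤ c.natAbs := nu_le (R_single c i)

theorem nu_add_int (N e : ℤ) : nu m (N + e) ≤ nu m N + e.natAbs := by
  have h1 := nu_add (m := m) N e
  have h2 := nu_single (m := m) e 0
  simp only [pow_zero, mul_one] at h2
  omega

theorem nu_dec (N : ℤ) : ∃ d N' : ℤ, N = d + m * N' ∧ d.natAbs + nu m N' ≤ nu m N := by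
  obtain ⟨j, h⟩ := nu_spec (m := m) N
  obtain ⟨d, N', w0, h1, h2, h3⟩ := h.succ
  have := nu_le h3
  exact ⟨d, N', h1, by omega⟩

theorem nu_cons (d N : ℤ) : nu m (d + m * N) ≤ d.natAbs + nu m N := by
  obtain ⟨j, h⟩ := nu_spec (m := m) N
  exact nu_le (j := j + 1) ⟨d, N, _, rfl, le_rfl, h⟩

theorem nu_mul (hm : 1 ≤ m) (N : ℤ) : nu m N ≤ nu m (m * N) := by
  obtain ⟨d, N', h1, h2⟩ := nu_dec (m := m) (m * N)
  have e : d = m * (N - N') := by linear_combination -h1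
  have := nu_add_int (m := m) N' (N - N')
  rw [add_sub_cancel] at this
  have a : (N - N').natAbs ≤ d.natAbs := by
    rw [e, Int.natAbs_mul, Int.natAbs_natCast]
    exact Nat.le_mul_of_pos_left _ hm
  omega

theorem nu_pow_mul (hm : 1 ≤ m) (r : ℕ) (N : ℤ) : nu m N ≤ nu m (m ^ r * N) := by
  induction r with
  | zero => simp
  | succ r ih =>
    have := nu_mul hm (m ^ r * N)
    rw [show (m : ℤ) * (m ^ r * N) = m ^ (r + 1) * N by ring] at this
    omega

theorem nu_grow (hm : 2 ≤ m) (N : ℤ) : nu m N + 1 ≤ nu m (m ^ 2 * N + 1) := by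
  obtain ⟨d0, N1, h1, h2⟩ := nu_dec (m := m) (m ^ 2 * N + 1)
  obtain ⟨d1, N2, h3, h4⟩ := nu_dec (m := m) N1
  have a := nu_add_int (m := m) N2 (N - N2)
  rw [add_sub_cancel] at a
  obtain ⟨e, he⟩ : ∃ e : ℤ, e = m * N - N1 := ⟨_, rfl⟩
  obtain ⟨f, hf⟩ : ∃ f : ℤ, f = N - N2 := ⟨_, rfl⟩
  rw [← hf] at a
  have e0 : d0 = 1 + m * e := by rw [he]; linear_combination -h1
  have e1 : d1 = -e + m * f := by rw [he, hf]; linear_combination -h3
  have b0 : 2 * e.natAbs ≤ (m * e).natAbs := by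
    rw [Int.natAbs_mul, Int.natAbs_natCast]; exact Nat.mul_le_mul_right _ hm
  have b1 : 2 * f.natAbs ≤ (m * f).natAbs := by
    rw [Int.natAbs_mul, Int.natAbs_natCast]; exact Nat.mul_le_mul_right _ hm
  have b2 : e = 0 → m * e = 0 := by intro h; rw [h, mul_zero]
  generalize (m : ℤ) * e = u at *
  generalize (m : ℤ) * f = v at *
  omega

theorem nu_reduce (hm : 2 ≤ m) (j : ℕ) : ∀ N : ℤ, N.natAbs ≤ m ^ j → R m (j + 1) N (nu m N) := by
  induction j with
  | zero =>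
    intro N hN
    refine ⟨N, 0, 0, by simp, ?_, rfl⟩
    obtain ⟨i, hi⟩ := nu_spec (m := m) N
    have := hi.bound (by omega)
    rcases Nat.eq_zero_or_pos (nu m N) with h | h
    · rw [h] at this; omega
    · simp at hN; omega
  | succ j ih =>
    intro N hN
    obtain ⟨d, N', h1, h2⟩ := nu_dec (m := m) N
    have e1 := Int.tmod_add_mul_tdiv d m
    have e2 : (d.tmod m).natAbs = d.natAbs % m := by rw [Int.natAbs_tmod, Int.natAbs_natCast]
    have e3 : (d.tdiv m).natAbs = d.natAbs / m := by rw [Int.natAbs_tdiv, Int.natAbs_natCast]; rfl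
    have e4 := Nat.mod_add_div d.natAbs m
    have e5 : d.natAbs % m < m := Nat.mod_lt _ (by omega)
    have e6 : d.natAbs / m ≤ m * (d.natAbs / m) := Nat.le_mul_of_pos_left _ (by omega)
    have a := nu_add_int (m := m) N' (d.tdiv m)
    have hN2 : N = d.tmod m + m * (N' + d.tdiv m) := by rw [h1]; linear_combination -e1
    refine ⟨d.tmod m, N' + d.tdiv m, nu m (N' + d.tdiv m), hN2, by omega, ih _ ?_⟩
    have b : (m * (N' + d.tdiv m)).natAbs ≤ N.natAbs + (d.tmod m).natAbs := by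
      have := Int.natAbs_sub_le N (d.tmod m)
      rwa [show N - d.tmod m = m * (N' + d.tdiv m) by linear_combination hN2] at this
    rw [Int.natAbs_mul, Int.natAbs_natCast] at b
    have c : m * (N' + d.tdiv m).natAbs < m * (m ^ j + 1) := by
      rw [mul_add, mul_one, ← pow_succ']; omega
    have := Nat.lt_of_mul_lt_mul_left c
    omega

noncomputable def W (m j : ℕ) : ℕ := (Finset.Ioo (-(m ^ j : ℤ)) (m ^ j)).sup (nu m)

theorem mem_I (j : ℕ) (N : ℤ) : N ∈ Finset.Ioo (-(m ^ j : ℤ)) (m ^ j) ↔ N.natAbs < m ^ j := by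
  rw [Finset.mem_Ioo, ← Nat.cast_pow]
  omega

theorem le_W {j : ℕ} {N : ℤ} (h : N.natAbs < m ^ j) : nu m N ≤ W m j :=
  Finset.le_sup (f := nu m) ((mem_I j N).2 h)

theorem W_spec (hm : 1 ≤ m) (j : ℕ) : ∃ N : ℤ, N.natAbs < m ^ j ∧ nu m N = W m j := by
  obtain ⟨N, h1, h2⟩ := Finset.exists_mem_eq_sup (Finset.Ioo (-(m ^ j : ℤ)) (m ^ j))
    ⟨0, (mem_I j 0).2 (by have := Nat.one_le_pow j m hm; simp only [Int.natAbs_zero]; omega)⟩ (nu m)
  exact ⟨N, (mem_I j N).1 h1, h2.symm⟩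

theorem W_mono (hm : 1 ≤ m) {j j' : ℕ} (h : j ≤ j') : W m j ≤ W m j' := by
  obtain ⟨N, h1, h2⟩ := W_spec hm j
  rw [← h2]
  exact le_W (h1.trans_le (Nat.pow_le_pow_right hm h))

theorem small_grow (hm : 2 ≤ m) {j : ℕ} {N : ℤ} (h : N.natAbs < m ^ j) :
    ((m : ℤ) ^ 2 * N + 1).natAbs < m ^ (j + 2) := by
  have a := Int.natAbs_add_le ((m : ℤ) ^ 2 * N) 1
  rw [Int.natAbs_mul, Int.natAbs_pow, Int.natAbs_natCast] at a
  have b : m ^ 2 * (N.natAbs + 1) ≤ m ^ 2 * m ^ j := Nat.mul_le_mul_left _ h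
  have c : 2 ^ 2 ≤ m ^ 2 := Nat.pow_le_pow_left hm 2
  rw [mul_add, mul_one, ← pow_add, add_comm 2 j] at b
  simp only [Int.natAbs_one] at a
  omega

theorem W_grow (hm : 2 ≤ m) (j : ℕ) : W m j + 1 ≤ W m (j + 2) := by
  obtain ⟨N, h1, h2⟩ := W_spec (m := m) (by omega) j
  have := nu_grow hm N
  have := le_W (small_grow hm h1)
  omega

theorem W_grow' (hm : 2 ≤ m) (j r : ℕ) : W m j + r ≤ W m (j + 2 * r) := by
  induction r with
  | zero => simp
  | succ r ih =>
    have := W_grow hm (j + 2 * r)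
    rw [show j + 2 * (r + 1) = j + 2 * r + 2 by ring]
    omega

theorem W_succ (hm : 2 ≤ m) (j : ℕ) : W m (j + 1) ≤ W m j + m := by
  obtain ⟨N, h1, h2⟩ := W_spec (m := m) (by omega) (j + 1)
  have e1 := Int.tmod_add_mul_tdiv N m
  have e2 : (N.tmod m).natAbs = N.natAbs % m := by rw [Int.natAbs_tmod, Int.natAbs_natCast]
  have e3 : (N.tdiv m).natAbs = N.natAbs / m := by rw [Int.natAbs_tdiv, Int.natAbs_natCast]; rfl
  have e5 : N.natAbs % m < m := Nat.mod_lt _ (by omega)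
  have a := nu_cons (m := m) (N.tmod m) (N.tdiv m)
  rw [e1] at a
  have b : (N.tdiv m).natAbs < m ^ j := by
    rw [e3, Nat.div_lt_iff_lt_mul (by omega), ← pow_succ]; exact h1
  have := le_W b
  omega

theorem W_add (hm : 2 ≤ m) (j r : ℕ) : W m (j + r) ≤ W m j + m * r := by
  induction r with
  | zero => simp
  | succ r ih =>
    have := W_succ hm (j + r)
    rw [← add_assoc, mul_add]
    omega

theorem W_zero : W m 0 = 0 := by
  unfold W
  rw [show Finset.Ioo (-((m : ℤ) ^ 0)) (m ^ 0) = {0} by simp; decide]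
  have := nu_le (R_zero (m := m) 0 0)
  simpa using this

end Pool.Agent.H.MP_af8618_al
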